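import Mathlib

set_option autoImplicit false

namespace Pool.Agent.Results.MP_18d2fb_an.NeumannFails

open Filter Topology Function BoundedContinuousFunction

variable (𝕜 : Type) [RCLike 𝕜]

/-- the weighted backward shift on bounded sequences, as a linear map -/
noncomputable def V0 : (ℕ →ᵇ 𝕜) →ₗ[𝕜] (ℕ →ᵇ 𝕜) where
  toFun f := BoundedContinuousFunction.ofNormedAddCommGroupDiscrete
    (fun n => f (n + 1) / ((n : 𝕜) + 1)) ‖f‖ (fun n => by
      rw [norm_div]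
      have h1 : ‖(n : 𝕜) + 1‖ = (n : ℝ) + 1 := by
        have : (n : 𝕜) + 1 = ((n + 1 : ℕ) : 𝕜) := by push_cast; ring
        rw [this, RCLike.norm_natCast]; push_cast; ring
      rw [h1]
      have h2 := f.norm_coe_le_norm (n + 1)
      have h3 : (1 : ℝ) ≤ (n : ℝ) + 1 := by have := Nat.cast_nonneg (α := ℝ) n; linarith
      exact (div_le_self (norm_nonneg _) h3).trans h2)
  map_add' f g := by ext n; simp [add_div]
  map_smul' c f := by ext n; simp [mul_div_assoc]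

lemma V0_apply (f : ℕ →ᵇ 𝕜) (n : ℕ) : V0 𝕜 f n = f (n + 1) / ((n : 𝕜) + 1) := rfl

lemma norm_succ (n : ℕ) : ‖(n : 𝕜) + 1‖ = (n : ℝ) + 1 := by
  have : (n : 𝕜) + 1 = ((n + 1 : ℕ) : 𝕜) := by push_cast; ring
  rw [this, RCLike.norm_natCast]; push_cast; ring

lemma V0_norm (f : ℕ →ᵇ 𝕜) : ‖V0 𝕜 f‖ ≤ 1 * ‖f‖ := by
  rw [one_mul, BoundedContinuousFunction.norm_le (norm_nonneg _)]
  intro n
  rw [V0_apply, norm_div, norm_succ]
  have h2 := f.norm_coe_le_norm (n + 1)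
  have h3 : (1 : ℝ) ≤ (n : ℝ) + 1 := by have := Nat.cast_nonneg (α := ℝ) n; linarith
  exact (div_le_self (norm_nonneg _) h3).trans h2

/-- the weighted backward shift -/
noncomputable def V : (ℕ →ᵇ 𝕜) →L[𝕜] (ℕ →ᵇ 𝕜) := (V0 𝕜).mkContinuous 1 (V0_norm 𝕜)

lemma V_apply (f : ℕ →ᵇ 𝕜) (n : ℕ) : V 𝕜 f n = f (n + 1) / ((n : 𝕜) + 1) := rfl

lemma V_norm (f : ℕ →ᵇ 𝕜) : ‖V 𝕜 f‖ ≤ ‖f‖ := by
  have := V0_norm 𝕜 f
  rw [one_mul] at this
  exact this

lemma V_pow_apply (f : ℕ →ᵇ 𝕜) (k : ℕ) :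
    ∀ n : ℕ, ‖(V 𝕜 ^ k) f n‖ ≤ ‖f‖ * (n.factorial : ℝ) / ((n + k).factorial : ℝ) := by
  induction k with
  | zero =>
    intro n
    have : (0 : ℝ) < n.factorial := by exact_mod_cast n.factorial_pos
    simpa [mul_div_assoc, this.ne'] using f.norm_coe_le_norm n
  | succ k ih =>
    intro n
    rw [pow_succ', mul_apply_eq_comp, V_apply, norm_div, norm_succ]
    have h1 := ih (n + 1)
    have hn : (0 : ℝ) < (n : ℝ) + 1 := by positivity
    rw [div_le_iff₀ hn]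
    refine h1.trans (le_of_eq ?_)
    rw [show n + 1 + k = n + (k + 1) by ring, Nat.factorial_succ]
    push_cast
    ring

lemma V_pow_norm (k : ℕ) : ‖V 𝕜 ^ k‖ ≤ 1 / (k.factorial : ℝ) := by
  refine ContinuousLinearMap.opNorm_le_bound _ (by positivity) fun f => ?_
  rw [BoundedContinuousFunction.norm_le (by positivity)]
  intro n
  refine (V_pow_apply 𝕜 f k n).trans ?_
  have h1 : (0 : ℝ) < (n + k).factorial := by exact_mod_cast (n + k).factorial_pos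
  have h2 : (0 : ℝ) < k.factorial := by exact_mod_cast k.factorial_pos
  have h3 : (n.factorial : ℝ) * k.factorial ≤ (n + k).factorial := by
    exact_mod_cast Nat.le_of_dvd (n + k).factorial_pos (Nat.factorial_mul_factorial_dvd_factorial_add n k)
  rw [div_le_iff₀ h1, one_div, mul_comm _ ‖f‖, mul_assoc]
  refine mul_le_mul_of_nonneg_left ?_ (norm_nonneg _)
  rw [le_inv_mul_iff₀ h2, mul_comm]
  exact h3

lemma exists_res' {Y : Type} [NormedAddCommGroup Y] [NormedSpace 𝕜 Y] [CompleteSpace Y]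
    (T : Y →L[𝕜] Y) (hT : ∀ k : ℕ, ‖T ^ k‖ ≤ 1 / (k.factorial : ℝ)) (c : 𝕜) :
    ∃ R : Y →L[𝕜] Y, R * (1 - c • T) = 1 ∧ (1 - c • T) * R = 1 := by
  have hs : Summable (fun k : ℕ => (c • T) ^ k) := by
    refine Summable.of_norm_bounded (g := fun k : ℕ => ‖c‖ ^ k / k.factorial)
      (Real.summable_pow_div_factorial _) fun k => ?_
    rw [smul_pow, norm_smul, norm_pow, div_eq_mul_one_div]
    exact mul_le_mul_of_nonneg_left (hT k) (by positivity)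
  exact ⟨_, hs.tsum_pow_mul_one_sub, hs.one_sub_mul_tsum_pow⟩

lemma exists_res (c : 𝕜) : ∃ R : (ℕ →ᵇ 𝕜) →L[𝕜] (ℕ →ᵇ 𝕜),
    R * (1 - c • V 𝕜) = 1 ∧ (1 - c • V 𝕜) * R = 1 :=
  exists_res' 𝕜 (V 𝕜) (V_pow_norm 𝕜) c

/-- backward orbits of `V` -/
def E : Submodule 𝕜 (ℕ → (ℕ →ᵇ 𝕜)) where
  carrier := {x | ∀ k, x k = V 𝕜 (x (k + 1))}
  add_mem' := fun {x y} hx hy k => by
    rw [Pi.add_apply, Pi.add_apply, map_add, ← hx k, ← hy k]
  zero_mem' := fun k => by simp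
  smul_mem' := fun c x hx k => by
    rw [Pi.smul_apply, Pi.smul_apply, map_smul, ← hx k]

lemma E_closed : IsClosed (E 𝕜 : Set (ℕ → (ℕ →ᵇ 𝕜))) := by
  have : (E 𝕜 : Set (ℕ → (ℕ →ᵇ 𝕜))) = ⋂ k, {x | x k = V 𝕜 (x (k + 1))} := by
    ext x; simp only [Set.mem_iInter]; rfl
  rw [this]
  exact isClosed_iInter fun k => isClosed_eq (continuous_apply k)
    ((V 𝕜).continuous.comp (continuous_apply (k + 1)))

/-- the shift on backward orbits -/
def U : E 𝕜 →L[𝕜] E 𝕜 where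
  toFun x := ⟨fun k => x.1 (k + 1), fun k => x.2 (k + 1)⟩
  map_add' _ _ := rfl
  map_smul' _ _ := rfl
  cont := by
    refine Continuous.subtype_mk (f := fun x : E 𝕜 => fun k => x.1 (k + 1)) ?_ _
    exact continuous_pi fun k => (continuous_apply (k + 1)).comp continuous_subtype_val

lemma U_pow (k : ℕ) : ∀ (x : E 𝕜) (j : ℕ), ((U 𝕜 ^ k) x).1 j = x.1 (j + k) := by
  induction k with
  | zero => intro x j; rfl
  | succ k ih =>
    intro x j
    rw [pow_succ, mul_apply_eq_comp, ih]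
    rfl

lemma bij (c : 𝕜) : Bijective (fun x : E 𝕜 => x - c • U 𝕜 x) := by
  rcases eq_or_ne c 0 with rfl | hc
  · simp only [zero_smul, sub_zero]
    exact bijective_id
  obtain ⟨R, h1, h2⟩ := exists_res 𝕜 c⁻¹
  have h1' : ∀ y, R (y - c⁻¹ • V 𝕜 y) = y := fun y => congrArg (fun T => T y) h1
  have h2' : ∀ y, R y - c⁻¹ • V 𝕜 (R y) = y := fun y => congrArg (fun T => T y) h2
  have hc' : ∀ y, R (V 𝕜 y) = V 𝕜 (R y) := by
    intro y
    have a1 := h1' (V 𝕜 (R y))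
    rw [← map_smul, ← map_sub, h2'] at a1
    exact a1
  constructor
  · intro x y h
    have h : x - c • U 𝕜 x = y - c • U 𝕜 y := h
    have h0 : (x - y) - c • U 𝕜 (x - y) = 0 := by
      rw [map_sub, smul_sub, sub_sub_sub_comm, h, sub_self]
    rw [← sub_eq_zero]
    set z := x - y
    have hz : ∀ k, z.1 (k + 1) = 0 := by
      intro k
      have a1 : z.1 k - c • z.1 (k + 1) = 0 := congrArg (fun w : E 𝕜 => w.1 k) h0
      rw [z.2 k, sub_eq_zero] at a1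
      rw [← h1' (z.1 (k + 1)), a1, smul_smul, inv_mul_cancel₀ hc, one_smul, sub_self, map_zero]
    ext1
    funext k
    rw [z.2 k, hz, map_zero]
    rfl
  · intro y
    refine ⟨⟨fun k => -(c⁻¹ • V 𝕜 (R (y.1 k))), fun k => ?_⟩, ?_⟩
    · show -(c⁻¹ • V 𝕜 (R (y.1 k))) = V 𝕜 (-(c⁻¹ • V 𝕜 (R (y.1 (k + 1)))))
      rw [y.2 k, hc', map_neg, map_smul]
    · ext1
      funext k
      show -(c⁻¹ • V 𝕜 (R (y.1 k))) - c • -(c⁻¹ • V 𝕜 (R (y.1 (k + 1)))) = y.1 k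
      rw [smul_neg, smul_smul, mul_inv_cancel₀ hc, one_smul, ← hc' (y.1 (k + 1)), ← y.2 k,
        sub_neg_eq_add, add_comm, ← sub_eq_add_neg, h2']

/-- `k!` times the `k`-th unit vector -/
noncomputable def w (k : ℕ) : ℕ →ᵇ 𝕜 :=
  BoundedContinuousFunction.ofNormedAddCommGroupDiscrete
    (fun n => if n = k then (k.factorial : 𝕜) else 0) (k.factorial : ℝ) (fun n => by
      split_ifs
      · rw [RCLike.norm_natCast]
      · simp)

lemma w_apply (k n : ℕ) : w 𝕜 k n = if n = k then (k.factorial : 𝕜) else 0 := rfl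

lemma w_mem : w 𝕜 ∈ E 𝕜 := by
  intro k
  ext n
  rw [V_apply, w_apply, w_apply]
  by_cases h : n = k
  · subst h
    have : (n : 𝕜) + 1 ≠ 0 := by exact_mod_cast n.succ_ne_zero
    rw [if_pos rfl, if_pos rfl, Nat.factorial_succ]
    push_cast
    field_simp
  · rw [if_neg h, if_neg (by omega), zero_div]

lemma diverge (c : 𝕜) (hc : c ≠ 0) (y : E 𝕜) :
    ¬ Tendsto (fun n => ∑ k ∈ Finset.range n, c ^ k • (U 𝕜 ^ k) ⟨w 𝕜, w_mem 𝕜⟩) atTop (𝓝 y) := by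
  intro h
  have h1 := ((tendsto_add_atTop_iff_nat 1).2 h).sub h
  simp only [Finset.sum_range_succ, add_sub_cancel_left, sub_self] at h1
  have h2 : Continuous fun z : E 𝕜 => ‖z.1 0‖ :=
    ((continuous_apply 0).comp continuous_subtype_val).norm
  have h3 := (h2.tendsto 0).comp h1
  have h4 := FloorSemiring.tendsto_pow_div_factorial_atTop (K := ℝ) ‖c‖⁻¹
  have h5 := h3.mul h4
  have h0 : ‖(0 : E 𝕜).1 0‖ * 0 = 0 := mul_zero _
  rw [h0] at h5
  have h6 := h5.eventually (gt_mem_nhds (show (0 : ℝ) < 1 from one_pos))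
  obtain ⟨k, hk⟩ := h6.exists
  have hcn : 0 < ‖c‖ := norm_pos_iff.2 hc
  have hf : (0 : ℝ) < k.factorial := by exact_mod_cast k.factorial_pos
  have h7 : (k.factorial : ℝ) ≤ ‖w 𝕜 k‖ := by
    have := (w 𝕜 k).norm_coe_le_norm k
    rwa [w_apply, if_pos rfl, RCLike.norm_natCast] at this
  have h8 : ‖(c ^ k • (U 𝕜 ^ k) ⟨w 𝕜, w_mem 𝕜⟩ : E 𝕜).1 0‖ = ‖c‖ ^ k * ‖w 𝕜 k‖ := by
    rw [Submodule.coe_smul, Pi.smul_apply, U_pow, norm_smul, norm_pow, zero_add]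
  simp only [comp_apply] at hk
  rw [h8, inv_pow] at hk
  have h9 : ‖c‖ ^ k * ‖w 𝕜 k‖ * ((‖c‖ ^ k)⁻¹ / k.factorial) = ‖w 𝕜 k‖ / k.factorial := by
    field_simp
  rw [h9, div_lt_one hf] at hk
  linarith

/-- the seminorms -/
noncomputable def p (k : ℕ) : Seminorm 𝕜 (E 𝕜) :=
  (normSeminorm 𝕜 (ℕ →ᵇ 𝕜)).comp ((LinearMap.proj k).comp (E 𝕜).subtype)

lemma p_with : WithSeminorms (p 𝕜) := by
  have h1 := withSeminorms_pi (𝕜 := 𝕜) (E := fun _ : ℕ => ℕ →ᵇ 𝕜)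
    (fun _ => norm_withSeminorms 𝕜 (ℕ →ᵇ 𝕜))
  have h2 := (Topology.IsInducing.subtypeVal (t := (E 𝕜 : Set (ℕ → (ℕ →ᵇ 𝕜))))).withSeminorms
    (f := (E 𝕜).subtype) h1
  exact h2.congr_equiv (Equiv.sigmaUnique ℕ (fun _ => Fin 1)).symm

lemma p_mono : Monotone (p 𝕜) := by
  refine monotone_nat_of_le_succ fun k x => ?_
  show ‖x.1 k‖ ≤ ‖x.1 (k + 1)‖
  rw [x.2 k]
  exact V_norm 𝕜 _

/-- Over the real or the complex scalars there is a Frechet space `E` and a continuous linear `U`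
with `I - c U` bijective for every scalar `c`, and a vector `x` whose Neumann series diverges for
every nonzero `c`. -/
theorem result : ∀ (𝕜 : Type) [RCLike 𝕜],
    ∃ (E : Type) (_ : AddCommGroup E) (_ : Module 𝕜 E) (_ : UniformSpace E)
      (_ : IsUniformAddGroup E) (p : ℕ → Seminorm 𝕜 E),
      WithSeminorms p ∧ Monotone p ∧ T2Space E ∧ CompleteSpace E ∧
      ∃ U : E →L[𝕜] E, (∀ c : 𝕜, Function.Bijective (fun x : E => x - c • U x)) ∧
        ∃ x : E, ∀ c : 𝕜, c ≠ 0 → ∀ y : E,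
          ¬ Filter.Tendsto (fun n : ℕ => ∑ k ∈ Finset.range n, c ^ k • (U ^ k) x)
            Filter.atTop (nhds y) := by
  intro 𝕜 _
  exact ⟨E 𝕜, inferInstance, inferInstance, inferInstance,
    (E 𝕜).toAddSubgroup.isUniformAddGroup, p 𝕜, p_with 𝕜, p_mono 𝕜,
    inferInstance, (E_closed 𝕜).completeSpace_coe, U 𝕜, bij 𝕜, _, diverge 𝕜⟩

end Pool.Agent.Results.MP_18d2fb_an.NeumannFails
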